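import Mathlib

/-!
# Functions on the quadratic twists of an elliptic curve and imaginary quadratic fields

The quadratic twists `E^x` of an elliptic curve `E` over `ℚ` are indexed by the squarefree integers
`x`.  Here `X` is the set of the `x` with `E^x` of analytic rank `r x` at most one, and `d x` is the
quotient of the two sides of the formula of Birch and Swinnerton-Dyer for `E^x` over `ℚ`, up to powers
of two or at one prime.  For `x, y ∈ X` with `xy < 0` and `r x + r y = 1` the formula `(*)` for `E^x`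
over `ℚ(√(xy))` says that `d x + d y = 0`.  The theorem is stated and proved for all sets `X` of
squarefree integers which meet all local conditions, and for all functions `d` on them.
-/

set_option autoImplicit false

namespace Pool.Agent.Results.MP_23455a_nt.HeegnerFieldsAndFinitelyMany

/-- `z` is a square in `ℚ_ℓ` (no condition if `ℓ` is not a prime) -/
def LocSq (l : ℕ) (z : ℤ) : Prop := ∀ _ : Fact l.Prime, ∃ t : ℚ_[l], t ^ 2 = (z : ℚ_[l])

/-- `x` and `y` have the same class in `ℚ_ℓ^*` modulo squares for all primes `ℓ ∈ T`; in other words,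
these primes split in `ℚ(√(xy))` or `xy` is a square -/
def SameType (T : Finset ℕ) (x y : ℤ) : Prop := ∀ l ∈ T, LocSq l (x * y)

/-- A set of squarefree integers with elements of each sign in each system of classes modulo squares
in `ℚ_ℓ^*`, `ℓ ∈ S`, for each finite set `S` of primes. -/
def MeetsAll (X : Set ℤ) : Prop :=
  (∀ x ∈ X, Squarefree x) ∧
    ∀ (S : Finset ℕ) (u : ℕ → ℤ) (s : ℤ), (∀ l, u l ≠ 0) → s ≠ 0 →
      ∃ y ∈ X, 0 < s * y ∧ ∀ l ∈ S, LocSq l (u l * y)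

/-- The field `ℚ(√(xy))` is imaginary, and all primes in `T` and all primes dividing `x` split in
it. -/
def Heeg (T : Finset ℕ) (x y : ℤ) : Prop :=
  x * y < 0 ∧ SameType T x y ∧ SameType x.natAbs.primeFactors x y

/-- The pairs of Q1: the field `ℚ(√(xy))` is imaginary and the ranks have the sum one. -/
def Pair (X : Set ℤ) (r : ℤ → ℕ) (x y : ℤ) : Prop := x ∈ X ∧ y ∈ X ∧ x * y < 0 ∧ r x + r y = 1

theorem sq_of_near {p : ℕ} [Fact p.Prime] (a b : ℤ_[p]) (h : ‖b ^ 2 - a‖ < ‖(2 : ℤ_[p]) * b‖ ^ 2) :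
    ∃ z : ℤ_[p], z ^ 2 = a := by
  have hF : ∀ y : ℤ_[p], (Polynomial.X ^ 2 - Polynomial.C a : Polynomial ℤ_[p]).aeval y =
      y ^ 2 - a := by
    intro y; simp
  have hF' : (Polynomial.X ^ 2 - Polynomial.C a : Polynomial ℤ_[p]).derivative.aeval b = 2 * b := by
    simp
    left
    norm_num
  obtain ⟨z, hz, -⟩ := hensels_lemma (F := (Polynomial.X ^ 2 - Polynomial.C a : Polynomial ℤ_[p]))
    (a := b) (by rw [hF, hF']; exact h)
  rw [hF] at hz
  exact ⟨z, sub_eq_zero.1 hz⟩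

theorem locSq_self (l : ℕ) (x : ℤ) : LocSq l (x * x) := fun _ => ⟨x, by push_cast; ring⟩

theorem locSq_comm {l : ℕ} {x y : ℤ} (h : LocSq l (x * y)) : LocSq l (y * x) := by
  rwa [mul_comm]

theorem locSq_trans {l : ℕ} {x y z : ℤ} (hy : y ≠ 0) (h1 : LocSq l (x * y)) (h2 : LocSq l (y * z)) :
    LocSq l (x * z) := by
  intro hl
  obtain ⟨s, hs⟩ := h1 hl
  obtain ⟨t, ht⟩ := h2 hl
  have hy' : (y : ℚ_[l]) ≠ 0 := by exact_mod_cast hy
  refine ⟨s * t / y, ?_⟩
  rw [div_pow, mul_pow, hs, ht]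
  push_cast
  field_simp

theorem sameType_refl (T : Finset ℕ) (x : ℤ) : SameType T x x := fun l _ => locSq_self l x

theorem sameType_comm {T : Finset ℕ} {x y : ℤ} (h : SameType T x y) : SameType T y x :=
  fun l hl => locSq_comm (h l hl)

theorem sameType_trans {T : Finset ℕ} {x y z : ℤ} (hy : y ≠ 0) (h1 : SameType T x y)
    (h2 : SameType T y z) : SameType T x z :=
  fun l hl => locSq_trans hy (h1 l hl) (h2 l hl)

theorem sqf_ne {x : ℤ} (h : Squarefree x) : x ≠ 0 := h.ne_zero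

/-- squarefree integers which are squares in `ℚ_ℓ` are not divisible by `ℓ` -/
theorem not_dvd {l : ℕ} (hl : l.Prime) {a : ℤ} (ha : Squarefree a) (h : LocSq l (1 * a)) :
    ¬ (l : ℤ) ∣ a := by
  intro hd
  have : Fact l.Prime := ⟨hl⟩
  obtain ⟨t, ht⟩ := h ⟨hl⟩
  rw [one_mul] at ht
  have h1 : ‖(a : ℚ_[l])‖ = ‖t‖ ^ 2 := by rw [← ht, norm_pow]
  have h2 : ‖(a : ℚ_[l])‖ < 1 := Padic.norm_intCast_lt_one_iff.2 hd
  have h3 : ‖t‖ < 1 := by
    by_contra hc
    have : 1 ≤ ‖t‖ ^ 2 := one_le_pow₀ (not_lt.1 hc)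
    linarith
  have h4 : ‖t‖ ≤ (l : ℝ) ^ (-1 : ℤ) := by
    have := (Padic.norm_lt_pow_iff_norm_le_pow_sub_one t 0).1 (by simpa using h3)
    simpa using this
  have h5 : ‖(a : ℚ_[l])‖ ≤ (l : ℝ) ^ (-2 : ℤ) := by
    rw [h1]
    calc ‖t‖ ^ 2 ≤ ((l : ℝ) ^ (-1 : ℤ)) ^ 2 := pow_le_pow_left₀ (norm_nonneg _) h4 2
      _ = (l : ℝ) ^ (-2 : ℤ) := by rw [← zpow_natCast, ← zpow_mul]; norm_num
  have h6 : ((l ^ 2 : ℕ) : ℤ) ∣ a := (Padic.norm_int_le_pow_iff_dvd a 2).1 (by simpa using h5)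
  have h7 : (l : ℤ) * l ∣ a := by
    have : ((l ^ 2 : ℕ) : ℤ) = (l : ℤ) * l := by push_cast; ring
    rwa [this] at h6
  have h8 := ha _ h7
  have h9 : l = 1 := by
    have := Int.isUnit_iff_natAbs_eq.1 h8
    simpa using this
  exact hl.one_lt.ne' h9

/-- squarefree integers which are congruent modulo `ℓ⁴` have the same class -/
theorem near {l : ℕ} {x y : ℤ} (hx : Squarefree x) (h : ((l ^ 4 : ℕ) : ℤ) ∣ x - y) :
    LocSq l (x * y) := by
  intro hl
  have hlp : l.Prime := hl.out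
  have hx1 : (l : ℝ) ^ (-1 : ℤ) ≤ ‖(x : ℤ_[l])‖ := by
    by_contra hc
    have h1 : ‖(x : ℤ_[l])‖ ≤ (l : ℝ) ^ (-(2 : ℕ) : ℤ) :=
      (PadicInt.norm_lt_pow_iff_norm_le_pow_sub_one (x : ℤ_[l]) (-1)).1 (not_le.1 hc)
    have h3 := (PadicInt.norm_int_le_pow_iff_dvd (p := l) (k := x) (n := 2)).1 h1
    have h7 : (l : ℤ) * l ∣ x := by
      have : ((l ^ 2 : ℕ) : ℤ) = (l : ℤ) * l := by push_cast; ring
      rwa [← this]
    have h8 := hx _ h7
    have h9 : l = 1 := by
      have := Int.isUnit_iff_natAbs_eq.1 h8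
      simpa using this
    exact hlp.one_lt.ne' h9
  have h2 : (l : ℝ) ^ (-1 : ℤ) ≤ ‖(2 : ℤ_[l])‖ := by
    by_cases h2l : l = 2
    · subst h2l
      have := PadicInt.norm_p (p := 2)
      have h3 : ((2 : ℕ) : ℤ_[2]) = 2 := by norm_num
      rw [h3] at this
      rw [this]; norm_num
    · have h3 : ‖(2 : ℤ_[l])‖ = 1 := by
        have h4 : ¬ ‖((2 : ℤ) : ℤ_[l])‖ < 1 := by
          rw [PadicInt.norm_int_lt_one_iff_dvd]
          intro hd
          have : l ∣ 2 := by exact_mod_cast hd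
          exact h2l ((Nat.prime_dvd_prime_iff_eq hlp Nat.prime_two).1 this)
        have h5 : ‖((2 : ℤ) : ℤ_[l])‖ = 1 := le_antisymm (PadicInt.norm_le_one _) (not_lt.1 h4)
        simpa using h5
      rw [h3]
      have : (1 : ℝ) ≤ l := by exact_mod_cast hlp.one_lt.le
      rw [zpow_neg_one]
      exact inv_le_one_of_one_le₀ this
  have h4 : ‖((x - y : ℤ) : ℤ_[l])‖ ≤ (l : ℝ) ^ (-(4 : ℕ) : ℤ) :=
    (PadicInt.norm_int_le_pow_iff_dvd (p := l) (k := x - y) (n := 4)).2 h
  have hl1 : (1 : ℝ) < l := by exact_mod_cast hlp.one_lt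
  have hl0 : (0 : ℝ) < l := by linarith
  have hx0 : 0 < ‖(x : ℤ_[l])‖ := lt_of_lt_of_le (by positivity) hx1
  obtain ⟨z, hz⟩ := sq_of_near (p := l) ((x * y : ℤ) : ℤ_[l]) (x : ℤ_[l]) (by
    have e1 : (x : ℤ_[l]) ^ 2 - ((x * y : ℤ) : ℤ_[l]) = (x : ℤ_[l]) * ((x - y : ℤ) : ℤ_[l]) := by
      push_cast; ring
    rw [e1, norm_mul, norm_mul]
    have k1 : ‖((x - y : ℤ) : ℤ_[l])‖ < ((l : ℝ) ^ (-1 : ℤ)) ^ 3 := by
      refine lt_of_le_of_lt h4 ?_
      rw [← zpow_natCast, ← zpow_mul]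
      exact zpow_lt_zpow_right₀ hl1 (by norm_num)
    have k2 : ((l : ℝ) ^ (-1 : ℤ)) ^ 3 ≤ ‖(2 : ℤ_[l])‖ ^ 2 * ‖(x : ℤ_[l])‖ := by
      have hp0 : 0 ≤ (l : ℝ) ^ (-1 : ℤ) := by positivity
      calc ((l : ℝ) ^ (-1 : ℤ)) ^ 3 = ((l : ℝ) ^ (-1 : ℤ)) ^ 2 * (l : ℝ) ^ (-1 : ℤ) := by ring
        _ ≤ ‖(2 : ℤ_[l])‖ ^ 2 * ‖(x : ℤ_[l])‖ := by
            apply mul_le_mul (pow_le_pow_left₀ hp0 h2 2) hx1 hp0 (by positivity)
    calc ‖(x : ℤ_[l])‖ * ‖((x - y : ℤ) : ℤ_[l])‖
        < ‖(x : ℤ_[l])‖ * ((l : ℝ) ^ (-1 : ℤ)) ^ 3 := mul_lt_mul_of_pos_left k1 hx0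
      _ ≤ ‖(x : ℤ_[l])‖ * (‖(2 : ℤ_[l])‖ ^ 2 * ‖(x : ℤ_[l])‖) :=
          mul_le_mul_of_nonneg_left k2 hx0.le
      _ = (‖(2 : ℤ_[l])‖ * ‖(x : ℤ_[l])‖) ^ 2 := by ring)
  exact ⟨(z : ℚ_[l]), by rw [← PadicInt.coe_pow, hz]; simp⟩

/-! ### The local law -/

/-- a Heegner neighbour -/
theorem exists_nb {X : Set ℤ} (hX : MeetsAll X) (T : Finset ℕ) {x : ℤ} (hx : x ∈ X) :
    ∃ y ∈ X, Heeg T x y := by
  have hx0 := (hX.1 x hx).ne_zero
  obtain ⟨y, hy, hs, hl⟩ := hX.2 (T ∪ x.natAbs.primeFactors) (fun _ => x) (-x)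
    (fun _ => hx0) (neg_ne_zero.2 hx0)
  have hxy : x * y < 0 := by linarith [neg_mul x y]
  exact ⟨y, hy, hxy, fun l h => hl l (Finset.mem_union_left _ h),
    fun l h => hl l (Finset.mem_union_right _ h)⟩

theorem same_of_unram {X : Set ℤ} (hX : MeetsAll X) {T : Finset ℕ} {G : Type} [AddCommGroup G]
    {g : ℤ → G} {c : G} (hg : ∀ x ∈ X, ∀ y ∈ X, Heeg T x y → g x + g y = c) {x a : ℤ}
    (hxX : x ∈ X) (haX : a ∈ X) (hs : 0 < x * a) (ht : SameType T x a)
    (hu : ∀ l ∈ x.natAbs.primeFactors, l ∉ T → ¬ (l : ℤ) ∣ a) : g x = g a := by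
  classical
  have hx0 := (hX.1 x hxX).ne_zero
  have ha0 := (hX.1 a haX).ne_zero
  obtain ⟨b, hb, hbs, hl⟩ := hX.2
    (T ∪ x.natAbs.primeFactors ∪ a.natAbs.primeFactors)
    (fun l => if l ∈ T ∪ x.natAbs.primeFactors then x else a) (-x)
    (fun l => by split_ifs <;> assumption) (neg_ne_zero.2 hx0)
  have hxb : x * b < 0 := by linarith [neg_mul x b]
  have hab : a * b < 0 := by
    by_contra hc
    have h1 : 0 ≤ a * b := not_lt.1 hc
    have h2 : 0 ≤ (x * a) * (a * b) := mul_nonneg hs.le h1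
    have h3 : (x * a) * (a * b) = (a * a) * (x * b) := by ring
    have h4 : (a * a) * (x * b) < 0 := mul_neg_of_pos_of_neg (mul_self_pos.2 ha0) hxb
    linarith
  have lx : ∀ l ∈ T ∪ x.natAbs.primeFactors, LocSq l (x * b) := by
    intro l h
    have := hl l (Finset.mem_union_left _ h)
    rwa [if_pos h] at this
  have la : ∀ l ∈ T ∪ a.natAbs.primeFactors, LocSq l (a * b) := by
    intro l h
    by_cases hlT : l ∈ T
    · exact locSq_trans hx0 (locSq_comm (ht l hlT)) (lx l (Finset.mem_union_left _ hlT))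
    · have h1 : l ∈ a.natAbs.primeFactors := by
        rcases Finset.mem_union.1 h with h | h
        · exact absurd h hlT
        · exact h
      have h2 : l ∉ T ∪ x.natAbs.primeFactors := by
        intro h3
        rcases Finset.mem_union.1 h3 with h3 | h3
        · exact hlT h3
        · exact hu l h3 hlT (Int.natCast_dvd.2 (Nat.dvd_of_mem_primeFactors h1))
      have := hl l (Finset.mem_union_right _ h1)
      rwa [if_neg h2] at this
  have e1 := hg x hxX b hb ⟨hxb, fun l h => lx l (Finset.mem_union_left _ h),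
    fun l h => lx l (Finset.mem_union_right _ h)⟩
  have e2 := hg a haX b hb ⟨hab, fun l h => la l (Finset.mem_union_left _ h),
    fun l h => la l (Finset.mem_union_right _ h)⟩
  exact add_right_cancel (e1.trans e2.symm)

/-- the law for twists of the same sign -/
theorem same_sign {X : Set ℤ} (hX : MeetsAll X) {T : Finset ℕ} {G : Type} [AddCommGroup G]
    {g : ℤ → G} {c : G} (hg : ∀ x ∈ X, ∀ y ∈ X, Heeg T x y → g x + g y = c) {x y : ℤ}
    (hxX : x ∈ X) (hyX : y ∈ X) (hs : 0 < x * y) (ht : SameType T x y) : g x = g y := by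
  classical
  have hx0 := (hX.1 x hxX).ne_zero
  have hy0 := (hX.1 y hyX).ne_zero
  obtain ⟨a, ha, has, hl⟩ := hX.2
    (T ∪ x.natAbs.primeFactors ∪ y.natAbs.primeFactors)
    (fun l => if l ∈ T then x else 1) x
    (fun l => by split_ifs; exacts [hx0, one_ne_zero]) hx0
  have h1 : SameType T x a := by
    intro l h
    have := hl l (Finset.mem_union_left _ (Finset.mem_union_left _ h))
    rwa [if_pos h] at this
  have h2 : SameType T y a := sameType_trans hx0 (sameType_comm ht) h1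
  have hu : ∀ l ∈ x.natAbs.primeFactors ∪ y.natAbs.primeFactors, l ∉ T → ¬ (l : ℤ) ∣ a := by
    intro l h hlT
    have h3 : l ∈ T ∪ x.natAbs.primeFactors ∪ y.natAbs.primeFactors := by
      simp only [Finset.mem_union] at h ⊢; tauto
    have h4 := hl l h3
    rw [if_neg hlT] at h4
    have hlp : l.Prime := by
      rcases Finset.mem_union.1 h with h | h <;> exact Nat.prime_of_mem_primeFactors h
    exact not_dvd hlp (hX.1 a ha) h4
  have hya : 0 < y * a := by
    by_contra hc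
    have g1 : y * a ≤ 0 := not_lt.1 hc
    have g2 : (x * y) * (y * a) ≤ 0 := mul_nonpos_of_nonneg_of_nonpos hs.le g1
    have g3 : (x * y) * (y * a) = (y * y) * (x * a) := by ring
    have g4 : 0 < (y * y) * (x * a) := mul_pos (mul_self_pos.2 hy0) has
    linarith
  rw [same_of_unram hX hg hxX ha has h1 (fun l h => hu l (Finset.mem_union_left _ h)),
    same_of_unram hX hg hyX ha hya h2 (fun l h => hu l (Finset.mem_union_right _ h))]

/-- the law for twists of opposite signs -/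
theorem opp_sign {X : Set ℤ} (hX : MeetsAll X) {T : Finset ℕ} {G : Type} [AddCommGroup G]
    {g : ℤ → G} {c : G} (hg : ∀ x ∈ X, ∀ y ∈ X, Heeg T x y → g x + g y = c) {x y : ℤ}
    (hxX : x ∈ X) (hyX : y ∈ X) (hs : x * y < 0) (ht : SameType T x y) : g x + g y = c := by
  have hx0 := (hX.1 x hxX).ne_zero
  obtain ⟨b, hb, H⟩ := exists_nb hX T hxX
  have e1 := hg x hxX b hb H
  have hby : 0 < b * y := by
    have h1 : 0 < (x * b) * (x * y) := mul_pos_of_neg_of_neg H.1 hs
    have h2 : (x * b) * (x * y) = (x * x) * (b * y) := by ring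
    rw [h2] at h1
    exact (pos_iff_pos_of_mul_pos h1).1 (mul_self_pos.2 hx0)
  rw [← same_sign hX hg hb hyX hby (sameType_trans hx0 (sameType_comm H.2.1) ht)]
  exact e1

/-! ### Representatives -/

theorem reps {α β : Type} [Finite β] (s : Setoid α) (f : α → β) (h : ∀ x y, f x = f y → s.r x y) :
    ∃ P : Finset α, ∀ x, ∃! a, a ∈ P ∧ s.r a x := by
  classical
  have : Finite (Quotient s) := Finite.of_injective (fun q : Quotient s => f q.out) (fun q q' e => by
    have h1 := h _ _ e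
    have h2 : (⟦q.out⟧ : Quotient s) = ⟦q'.out⟧ := Quotient.sound h1
    rwa [Quotient.out_eq, Quotient.out_eq] at h2)
  refine ⟨(Set.finite_range (Quotient.out : Quotient s → α)).toFinset, fun x =>
    ⟨(⟦x⟧ : Quotient s).out, ⟨by simp, Quotient.mk_out x⟩, ?_⟩⟩
  rintro a ⟨ha, hax⟩
  rw [Set.Finite.mem_toFinset] at ha
  obtain ⟨q, rfl⟩ := ha
  have h1 : q = ⟦x⟧ := by
    rw [← Quotient.out_eq q]; exact Quotient.sound hax
  rw [h1]

theorem exists_zero {X : Set ℤ} (hX : MeetsAll X) {T : Finset ℕ} {r : ℤ → ℕ}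
    (hr : ∀ x ∈ X, r x ≤ 1) (hpar : ∀ x ∈ X, ∀ y ∈ X, Heeg T x y → r x + r y = 1) {x : ℤ}
    (hx : Squarefree x) : ∃ y ∈ X, r y = 0 ∧ SameType T x y := by
  have hx0 := hx.ne_zero
  obtain ⟨y, hy, -, hl⟩ := hX.2 T (fun _ => x) 1 (fun _ => hx0) one_ne_zero
  by_cases h0 : r y = 0
  · exact ⟨y, hy, h0, hl⟩
  · obtain ⟨z, hz, H⟩ := exists_nb hX T hy
    have h1 := hpar y hy z hz H
    have h2 := hr y hy
    exact ⟨z, hz, by omega, sameType_trans (hX.1 y hy).ne_zero hl H.2.1⟩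

theorem exists_reps {X : Set ℤ} (hX : MeetsAll X) {T : Finset ℕ} {r : ℤ → ℕ}
    (hr : ∀ x ∈ X, r x ≤ 1) (hpar : ∀ x ∈ X, ∀ y ∈ X, Heeg T x y → r x + r y = 1) :
    ∃ A : Finset ℤ, (∀ a ∈ A, a ∈ X ∧ r a = 0) ∧
      ∀ x, Squarefree x → ∃! a, a ∈ A ∧ SameType T a x := by
  classical
  let M : ℕ := ∏ l ∈ T with l.Prime, l ^ 4
  have hM : M ≠ 0 := Finset.prod_ne_zero_iff.2 fun l hl =>
    pow_ne_zero _ (Finset.mem_filter.1 hl).2.ne_zero
  have : NeZero M := ⟨hM⟩
  let s : Setoid {x : ℤ // x ∈ X ∧ r x = 0} :=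
    { r := fun x y => SameType T x.1 y.1
      iseqv := ⟨fun x => sameType_refl T x.1, fun h => sameType_comm h,
        fun {x y z} h1 h2 => sameType_trans (hX.1 y.1 y.2.1).ne_zero h1 h2⟩ }
  obtain ⟨P, hP⟩ := reps s (fun x => ((x.1 : ℤ) : ZMod M)) (by
    intro x y e l hl hlp
    have h1 : (M : ℤ) ∣ x.1 - y.1 := by
      rw [← ZMod.intCast_zmod_eq_zero_iff_dvd]
      push_cast
      exact sub_eq_zero.2 e
    have h2 : ((l ^ 4 : ℕ) : ℤ) ∣ x.1 - y.1 :=
      (Int.natCast_dvd_natCast.2 (Finset.dvd_prod_of_mem (fun l => l ^ 4)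
        (Finset.mem_filter.2 ⟨hl, hlp.out⟩))).trans h1
    exact near (hX.1 x.1 x.2.1) h2 hlp)
  refine ⟨P.image Subtype.val, ?_, ?_⟩
  · intro a ha
    obtain ⟨b, -, rfl⟩ := Finset.mem_image.1 ha
    exact b.2
  · intro x hx
    obtain ⟨y, hy, ry, hxy⟩ := exists_zero hX hr hpar hx
    obtain ⟨a, ⟨ha, hay⟩, hu⟩ := hP ⟨y, hy, ry⟩
    refine ⟨a.1, ⟨Finset.mem_image_of_mem _ ha,
      sameType_trans (hX.1 y hy).ne_zero hay (sameType_comm hxy)⟩, ?_⟩
    rintro b ⟨hb, hbx⟩
    obtain ⟨b', hb', rfl⟩ := Finset.mem_image.1 hb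
    exact congrArg Subtype.val (hu b' ⟨hb', sameType_trans hx.ne_zero hbx hxy⟩)

/-! ### The result -/

/-- (1) The values of `d` at elements of `X` of the same type are equal if the elements have the same
sign, and opposite if they have opposite signs. -/
def LocalLaw (T : Finset ℕ) (X : Set ℤ) {G : Type} [AddCommGroup G] (d : ℤ → G) : Prop :=
  ∀ x ∈ X, ∀ y ∈ X, SameType T x y → (0 < x * y → d x = d y) ∧ (x * y < 0 → d x = - d y)

/-- (2) Whether `d x + d y = 0` for a pair depends only on the types of `x` and `y`. -/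
def PairLocal (T : Finset ℕ) (X : Set ℤ) (r : ℤ → ℕ) {G : Type} [AddCommGroup G] (d : ℤ → G) :
    Prop :=
  ∀ x y x' y', Pair X r x y → Pair X r x' y' → SameType T x x' → SameType T y y' →
    (d x + d y = 0 ↔ d x' + d y' = 0)

/-- The values of `d` on `X` are given by two elements of `G`. -/
def TwoConstants (X : Set ℤ) (r : ℤ → ℕ) {G : Type} [AddCommGroup G] (d : ℤ → G) : Prop :=
  ∃ c₁ c₂ : G, ∀ x ∈ X,
    (0 < x → (r x = 0 → d x = c₁) ∧ (r x = 1 → d x = - c₂)) ∧
    (x < 0 → (r x = 0 → d x = c₂) ∧ (r x = 1 → d x = - c₁))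

theorem star_of_two {X : Set ℤ} {r : ℤ → ℕ} {G : Type} [AddCommGroup G] {d : ℤ → G}
    (h : TwoConstants X r d) {x y : ℤ} (H : Pair X r x y) : d x + d y = 0 := by
  obtain ⟨c₁, c₂, hc⟩ := h
  obtain ⟨hx, hy, hxy, hr⟩ := H
  rcases mul_neg_iff.1 hxy with ⟨h1, h2⟩ | ⟨h1, h2⟩
  · have k1 := (hc x hx).1 h1
    have k2 := (hc y hy).2 h2
    rcases Nat.eq_zero_or_pos (r x) with h0 | h0
    · rw [k1.1 h0, k2.2 (by omega)]; abel
    · rw [k1.2 (by omega), k2.1 (by omega)]; abel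
  · have k1 := (hc x hx).2 h1
    have k2 := (hc y hy).1 h2
    rcases Nat.eq_zero_or_pos (r x) with h0 | h0
    · rw [k1.1 h0, k2.2 (by omega)]; abel
    · rw [k1.2 (by omega), k2.1 (by omega)]; abel

theorem local_law {X : Set ℤ} (hX : MeetsAll X) {T : Finset ℕ} {G : Type} [AddCommGroup G]
    {d : ℤ → G} (hg : ∀ x ∈ X, ∀ y ∈ X, Heeg T x y → d x + d y = 0) : LocalLaw T X d :=
  fun _ hx _ hy ht => ⟨fun h => same_sign hX hg hx hy h ht,
    fun h => eq_neg_of_add_eq_zero_left (opp_sign hX hg hx hy h ht)⟩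

theorem pair_local {X : Set ℤ} (hX : MeetsAll X) {T : Finset ℕ} {r : ℤ → ℕ} {G : Type}
    [AddCommGroup G] {d : ℤ → G} (h : LocalLaw T X d) : PairLocal T X r d := by
  intro x y x' y' H H' h1 h2
  obtain ⟨hx, hy, hxy, hr⟩ := H
  obtain ⟨hx', hy', hxy', hr'⟩ := H'
  have l1 := h x hx x' hx' h1
  have l2 := h y hy y' hy' h2
  have h3 : 0 < (x * x') * (y * y') := by
    have := mul_pos_of_neg_of_neg hxy hxy'
    have e : (x * y) * (x' * y') = (x * x') * (y * y') := by ring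
    rwa [e] at this
  rcases lt_or_gt_of_ne (mul_ne_zero (hX.1 x hx).ne_zero (hX.1 x' hx').ne_zero) with h4 | h4
  · have h5 : y * y' < 0 := by
      rcases pos_and_pos_or_neg_and_neg_of_mul_pos h3 with h | h
      · exact absurd h.1 (not_lt.2 h4.le)
      · exact h.2
    rw [l1.2 h4, l2.2 h5, ← neg_add, neg_eq_zero]
  · have h5 : 0 < y * y' := (pos_iff_pos_of_mul_pos h3).1 h4
    rw [l1.1 h4, l2.1 h5]

/-- `T` is a finite set of primes, `X` a set of squarefree integers which meets all local conditions,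
and `r` is a function with the values zero and one on `X` and the sum one on the pairs in `Heeg T`.
There are a finite subset `A` of `X` with `r = 0` on `A`, one element for each type, and a set `P` of
at most as many pairs, such that for all functions `d` with values in an abelian group: `d x + d y = 0`
for all pairs iff the values of `d` are given by two constants; if `d x + d y = 0` for the pairs in
`Heeg T`, then (1), (2), it holds for all pairs as soon as it holds for the pairs in `P`, and `d` is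
zero on `X` as soon as it is zero on `A`. -/
theorem result (T : Finset ℕ) (X : Set ℤ) (hX : MeetsAll X) (r : ℤ → ℕ) (hr : ∀ x ∈ X, r x ≤ 1)
    (hpar : ∀ x ∈ X, ∀ y ∈ X, Heeg T x y → r x + r y = 1) :
    ∃ (A : Finset ℤ) (P : Finset (ℤ × ℤ)),
      (∀ a ∈ A, a ∈ X ∧ r a = 0) ∧
      (∀ x, Squarefree x → ∃! a, a ∈ A ∧ SameType T a x) ∧
      P.card ≤ A.card ∧ (∀ q ∈ P, Pair X r q.1 q.2) ∧
      ∀ (G : Type) [AddCommGroup G] (d : ℤ → G),
        ((∀ x y, Pair X r x y → d x + d y = 0) ↔ TwoConstants X r d) ∧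
        ((∀ x ∈ X, ∀ y ∈ X, Heeg T x y → d x + d y = 0) →
          LocalLaw T X d ∧ PairLocal T X r d ∧
          ((∀ q ∈ P, d q.1 + d q.2 = 0) → ∀ x y, Pair X r x y → d x + d y = 0) ∧
          ((∀ a ∈ A, d a = 0) → ∀ x ∈ X, d x = 0)) := by
  classical
  obtain ⟨A, hA, hrep⟩ := exists_reps hX hr hpar
  have hnb : ∀ a ∈ A, ∃ y ∈ X, Heeg T a y := fun a ha => exists_nb hX T (hA a ha).1
  choose! nb hnb using hnb
  obtain ⟨bp, hbp⟩ : ∃ b, ∀ a ∈ A, 0 < a → b ∈ A ∧ 0 < b := by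
    by_cases h : ∃ a ∈ A, 0 < a
    · obtain ⟨a, ha, h0⟩ := h
      exact ⟨a, fun _ _ _ => ⟨ha, h0⟩⟩
    · exact ⟨0, fun a ha h0 => absurd ⟨a, ha, h0⟩ h⟩
  obtain ⟨bn, hbn⟩ : ∃ b, ∀ a ∈ A, a < 0 → b ∈ A ∧ b < 0 := by
    by_cases h : ∃ a ∈ A, a < 0
    · obtain ⟨a, ha, h0⟩ := h
      exact ⟨a, fun _ _ _ => ⟨ha, h0⟩⟩
    · exact ⟨0, fun a ha h0 => absurd ⟨a, ha, h0⟩ h⟩
  have hne0 : ∀ x ∈ X, x ≠ 0 := fun x hx => (hX.1 x hx).ne_zero
  -- the pairs
  have hpair : ∀ a ∈ A, Pair X r (if 0 < a then bp else bn) (nb a) := by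
    intro a ha
    obtain ⟨hy, H⟩ := hnb a ha
    have h1 := hpar a (hA a ha).1 (nb a) hy H
    rw [(hA a ha).2] at h1
    have hay := H.1
    by_cases h0 : 0 < a
    · rw [if_pos h0]
      obtain ⟨k1, k2⟩ := hbp a ha h0
      exact ⟨(hA bp k1).1, hy, mul_neg_of_pos_of_neg k2 (neg_of_mul_neg_right hay h0.le),
        by rw [(hA bp k1).2]; exact h1⟩
    · rw [if_neg h0]
      have h0' : a < 0 := lt_of_le_of_ne (not_lt.1 h0) (hne0 a (hA a ha).1)
      obtain ⟨k1, k2⟩ := hbn a ha h0'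
      exact ⟨(hA bn k1).1, hy, mul_neg_of_neg_of_pos k2 (pos_of_mul_neg_right hay h0'.le),
        by rw [(hA bn k1).2]; exact h1⟩
  -- ranks
  have hrk : ∀ x ∈ X, ∀ y ∈ X, Heeg T x y → (r x : ℤ) + r y = 1 := by
    intro x hx y hy H
    exact_mod_cast hpar x hx y hy H
  -- Heegner pairs and `P` give two constants
  have key : ∀ (G : Type) [AddCommGroup G] (d : ℤ → G),
      (∀ x ∈ X, ∀ y ∈ X, Heeg T x y → d x + d y = 0) →
      (∀ a ∈ A, d (if 0 < a then bp else bn) + d (nb a) = 0) → TwoConstants X r d := by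
    intro G _ d hg hP
    have hlaw := local_law hX hg
    have hd1 : ∀ a ∈ A, 0 < a → d a = d bp := by
      intro a ha h0
      have e1 := hg a (hA a ha).1 (nb a) (hnb a ha).1 (hnb a ha).2
      have e2 := hP a ha
      rw [if_pos h0] at e2
      exact add_right_cancel (e1.trans e2.symm)
    have hd2 : ∀ a ∈ A, a < 0 → d a = d bn := by
      intro a ha h0
      have e1 := hg a (hA a ha).1 (nb a) (hnb a ha).1 (hnb a ha).2
      have e2 := hP a ha
      rw [if_neg (not_lt.2 h0.le)] at e2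
      exact add_right_cancel (e1.trans e2.symm)
    refine ⟨d bp, d bn, fun x hx => ?_⟩
    obtain ⟨a, ⟨ha, hax⟩, -⟩ := hrep x (hX.1 x hx)
    have ha0 := (hA a ha).2
    have hne : a * x ≠ 0 := mul_ne_zero (hne0 a (hA a ha).1) (hne0 x hx)
    have pos0 : r x = 0 → 0 < a * x := by
      intro r0
      rcases lt_or_gt_of_ne hne with h | h
      · have := opp_sign hX hrk (hA a ha).1 hx h hax
        rw [ha0, r0] at this
        norm_num at this
      · exact h
    have neg1 : r x = 1 → a * x < 0 := by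
      intro r1
      rcases lt_or_gt_of_ne hne with h | h
      · exact h
      · have := same_sign hX hrk (hA a ha).1 hx h hax
        rw [ha0, r1] at this
        norm_num at this
    have law := hlaw a (hA a ha).1 x hx hax
    constructor
    · intro hx0
      constructor
      · intro r0
        have hpos := pos0 r0
        rw [← law.1 hpos]
        refine hd1 a ha ?_
        rcases pos_and_pos_or_neg_and_neg_of_mul_pos hpos with h | h
        · exact h.1
        · exact absurd h.2 (not_lt.2 hx0.le)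
      · intro r1
        have hneg := neg1 r1
        have h1 := law.2 hneg
        have h2 : a < 0 := by
          rcases mul_neg_iff.1 hneg with h | h
          · exact absurd h.2 (not_lt.2 hx0.le)
          · exact h.1
        rw [hd2 a ha h2] at h1
        rw [h1, neg_neg]
    · intro hx0
      constructor
      · intro r0
        have hpos := pos0 r0
        rw [← law.1 hpos]
        refine hd2 a ha ?_
        rcases pos_and_pos_or_neg_and_neg_of_mul_pos hpos with h | h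
        · exact absurd h.2 (not_lt.2 hx0.le)
        · exact h.1
      · intro r1
        have hneg := neg1 r1
        have h1 := law.2 hneg
        have h2 : 0 < a := by
          rcases mul_neg_iff.1 hneg with h | h
          · exact h.1
          · exact absurd h.2 (not_lt.2 hx0.le)
        rw [hd1 a ha h2] at h1
        rw [h1, neg_neg]
  refine ⟨A, A.image (fun a => (if 0 < a then bp else bn, nb a)), hA, hrep, Finset.card_image_le,
    ?_, ?_⟩
  · intro q hq
    obtain ⟨a, ha, rfl⟩ := Finset.mem_image.1 hq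
    exact hpair a ha
  · intro G _ d
    refine ⟨⟨fun h => key G d (fun x hx y hy H => h x y ⟨hx, hy, H.1, hpar x hx y hy H⟩)
      (fun a ha => h _ _ (hpair a ha)), fun h x y H => star_of_two h H⟩, fun hg => ?_⟩
    have hlaw := local_law hX hg
    refine ⟨hlaw, pair_local hX hlaw, fun hP x y H => ?_, fun h0 x hx => ?_⟩
    · exact star_of_two (key G d hg (fun a ha => hP _ (Finset.mem_image_of_mem _ ha))) H
    · obtain ⟨a, ⟨ha, hax⟩, -⟩ := hrep x (hX.1 x hx)
      have hne : a * x ≠ 0 := mul_ne_zero (hne0 a (hA a ha).1) (hne0 x hx)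
      have h1 := hlaw a (hA a ha).1 x hx hax
      rw [h0 a ha] at h1
      rcases lt_or_gt_of_ne hne with h | h
      · exact neg_eq_zero.1 (h1.2 h).symm
      · exact (h1.1 h).symm

end Pool.Agent.Results.MP_23455a_nt.HeegnerFieldsAndFinitelyMany
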